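import Pool.Agent.X227.DN.Nd

/-!
# Contractions of numerically trivial classes
-/

open CategoryTheory AlgebraicGeometry Finset Function
open Pool.Agent.Y132.EP (DG tow idm map_idm exm map_exm)

set_option linter.unusedSectionVars false

universe u v w

namespace Pool.Agent.X227.DN

open Pool.Agent.H914 Pool.Agent.H914.VarClass Pool.Agent.H914.VarClass.Obj
  Pool.Agent.H914.WeilCohomology Pool.Agent.H281R3.HT Pool.Agent.W552 Pool.Agent.TH125.Gal
  Pool.Agent.Y132.AF

variable {κ : ℕ} {k : Type u} [Field k] {𝒱 : VarClass k} {ops : CycleOps 𝒱}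
  {W : WeilCohomology.{u, 0} ops} {Γ : Type} [Group Γ] {ι : Type} {Λ : Type} [DecidableEq Λ]
  {χ : Γ →* W.Kˣ} {X : ι → DG W Γ} {c : Λ → ι} {f : ∀ i, SFrame κ (X i).X W}

theorem push_pair {A A' Y : 𝒱.Obj} {i i' : ℕ} {t a : W.H A} {t' b : W.H A'} {y : W.H Y}
    (ht' : t' ∈ W.gr A' i') (ha : a ∈ W.gr A i) :
    W.push (snd A (A'.prod Y) ≫ snd A' Y) (W.map (Obj.lift (fst A (A'.prod Y))
      (snd A (A'.prod Y) ≫ fst A' Y)) (W.map (fst A A') t * W.map (snd A A') t') *
        (W.map (fst A (A'.prod Y)) a * W.map (snd A (A'.prod Y))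
          (W.map (fst A' Y) b * W.map (snd A' Y) y))) =
      ((-1 : W.K) ^ (i' * i) * (bil W A t a * bil W A' t' b)) • y := by
  have e : W.map (Obj.lift (fst A (A'.prod Y)) (snd A (A'.prod Y) ≫ fst A' Y))
      (W.map (fst A A') t * W.map (snd A A') t') = W.map (fst A (A'.prod Y)) t *
        W.map (snd A (A'.prod Y)) (W.map (fst A' Y) t') := by
    rw [map_mul, ← W.map_comp, ← W.map_comp, Obj.lift_fst, Obj.lift_snd, W.map_comp]
  rw [e, ext_swap (W.map_mem _ ht') ha, map_smul, W.push_comp, W.push_snd, map_smul, ← mul_assoc,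
    ← map_mul, W.push_snd, smul_smul, smul_smul, bil_apply, bil_apply, mul_assoc]

theorem pair_coef {i i' : ι} (h : i = i') (x y : Lt κ) :
    ∑ a, ∑ b, (omz (f i).g a b : W.K) * (bil W (X i).X ((f i).t a) ((f i).t x) *
      bil W (X i').X ((f i').t b) ((f i').t y)) = (omz (f i).g x y : W.K) := by
  subst h
  rw [← (f i).bil_t, ← (f i).canon ((f i).t_mem x) ((f i).t_mem y)]
  refine Finset.sum_congr rfl fun a _ => Finset.sum_congr rfl fun b _ => ?_
  rw [(f i).anti_t ((f i).t_mem a) ((f i).t_mem x), (f i).anti_t ((f i).t_mem b) ((f i).t_mem y)]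
  ring

/-- **The contraction of a pair of factors.** -/
theorem asm_contract (hmid : ∀ i, transcendental W (X i).X ≤ W.gr (X i).X (X i).X.dim)
    {Z : DG W Γ} {p q : Λ} {l : List Λ} (hpq : p ≠ q) (hc : c p = c q)
    {F : (Λ → Lt κ) → W.H Z.X}
    (hoff : ∀ J : Λ → Lt κ, (f (c p)).g ≤ ((J p).2 : ℕ) → F J = 0) :
    W.push (snd (X (c p)).X ((X (c q)).X.prod (tow X Z c l).X) ≫
        snd (X (c q)).X (tow X Z c l).X)
      (W.map (Obj.lift (fst (X (c p)).X ((X (c q)).X.prod (tow X Z c l).X))
        (snd (X (c p)).X ((X (c q)).X.prod (tow X Z c l).X) ≫ fst (X (c q)).X (tow X Z c l).X))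
        (dOm (f (c p)) (f (c q))) * asm X c f Z (p :: q :: l) F) =
      (-1 : W.K) ^ ((X (c q)).X.dim * (X (c p)).X.dim) • asm X c f Z l (cw p q F) := by
  have h1 : asm X c f Z (p :: q :: l) F = ∑ a', ∑ b',
      W.map (fst (X (c p)).X ((X (c q)).X.prod (tow X Z c l).X)) ((f (c p)).t a') *
        W.map (snd (X (c p)).X ((X (c q)).X.prod (tow X Z c l).X))
          (W.map (fst (X (c q)).X (tow X Z c l).X) ((f (c q)).t b') *
            W.map (snd (X (c q)).X (tow X Z c l).X) (asm X c f Z l (upd q b' (upd p a' F)))) := by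
    rw [asm_cons]
    refine Finset.sum_congr rfl fun a' _ => ?_
    rw [asm_cons, map_sum, Finset.mul_sum]
  rw [h1, dOm]
  have h2 : ∀ a b a' b' : Lt κ, W.push (snd (X (c p)).X ((X (c q)).X.prod (tow X Z c l).X) ≫
        snd (X (c q)).X (tow X Z c l).X)
      (W.map (Obj.lift (fst (X (c p)).X ((X (c q)).X.prod (tow X Z c l).X))
        (snd (X (c p)).X ((X (c q)).X.prod (tow X Z c l).X) ≫ fst (X (c q)).X (tow X Z c l).X))
        ((omz (f (c p)).g a b : W.K) • (W.map (fst (X (c p)).X (X (c q)).X) ((f (c p)).t a) *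
          W.map (snd (X (c p)).X (X (c q)).X) ((f (c q)).t b))) *
        (W.map (fst (X (c p)).X ((X (c q)).X.prod (tow X Z c l).X)) ((f (c p)).t a') *
        W.map (snd (X (c p)).X ((X (c q)).X.prod (tow X Z c l).X))
          (W.map (fst (X (c q)).X (tow X Z c l).X) ((f (c q)).t b') *
            W.map (snd (X (c q)).X (tow X Z c l).X)
              (asm X c f Z l (upd q b' (upd p a' F)))))) =
      ((-1 : W.K) ^ ((X (c q)).X.dim * (X (c p)).X.dim) * ((omz (f (c p)).g a b : W.K) *
        (bil W (X (c p)).X ((f (c p)).t a) ((f (c p)).t a') *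
          bil W (X (c q)).X ((f (c q)).t b) ((f (c q)).t b')))) •
            asm X c f Z l (upd q b' (upd p a' F)) := by
    intro a b a' b'
    rw [map_smul, smul_mul_assoc, map_smul,
      push_pair (hmid _ ((f (c q)).t_mem b)) (hmid _ ((f (c p)).t_mem a')), smul_smul]
    congr 1
    ring
  simp only [map_sum, Finset.sum_mul, Finset.mul_sum]
  simp only [h2]
  have h4 : ∀ a' b' : Lt κ, ∑ a, ∑ b, ((-1 : W.K) ^ ((X (c q)).X.dim * (X (c p)).X.dim) *
      ((omz (f (c p)).g a b : W.K) * (bil W (X (c p)).X ((f (c p)).t a) ((f (c p)).t a') *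
          bil W (X (c q)).X ((f (c q)).t b) ((f (c q)).t b')))) •
            asm X c f Z l (upd q b' (upd p a' F)) =
      (-1 : W.K) ^ ((X (c q)).X.dim * (X (c p)).X.dim) • ((omz (f (c p)).g a' b' : W.K) •
        asm X c f Z l (upd q b' (upd p a' F))) := by
    intro a' b'
    simp only [← Finset.sum_smul, ← Finset.mul_sum]
    rw [pair_coef hc, mul_smul]
  simp only [h4, ← Finset.smul_sum]
  congr 1
  have h5 := sum_omz (f (c p)).g (fun a' b' => asm X c f Z l (upd q b' (upd p a' F)))
    (fun a' b' ha => by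
      have e1 : upd q b' (upd p a' F) = 0 := by
        funext J
        change F (update (update J q b') p a') = 0
        exact hoff _ (by rw [update_self]; exact ha)
      beta_reduce
      rw [e1, asm_zero])
  simp only [Int.cast_smul_eq_zsmul]
  rw [h5]
  have h6 : cw p q F = ∑ r : Lt κ, (sg r : W.K) • upd p r (upd q (bar r) F) := by
    rw [ctw_eq]
    rfl
  rw [h6, asm_sum]
  refine Finset.sum_congr rfl fun r _ => ?_
  rw [asm_smul, Int.cast_smul_eq_zsmul, upd_comm hpq]

/-- Functions with the class zero. -/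
theorem asm_inj {Z : DG W Γ} (l : List Λ) : l.Nodup → ∀ F : (Λ → Lt κ) → W.H Z.X,
    Dep l F → (∀ s ∈ l, ∀ J : Λ → Lt κ, (f (c s)).g ≤ ((J s).2 : ℕ) → F J = 0) →
      asm X c f Z l F = 0 → F = 0 := by
  induction l with
  | nil =>
    intro _ F hd _ h
    funext J
    rw [hd J (fun _ => 0) (by simp)]
    exact h
  | cons s l ih =>
    intro hnd F hd hoff h
    obtain ⟨hs, hnd'⟩ := List.nodup_cons.1 hnd
    have h1 : ∀ b : Lt κ, (b.2 : ℕ) < (f (c s)).g → asm X c f Z l (upd s b F) = 0 := by
      intro b hb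
      have h2 := congrArg ((f (c s)).cT (tow X Z c l).X b) h
      rw [asm_cons, map_sum, map_zero] at h2
      have h3 : ∀ a, (f (c s)).cT (tow X Z c l).X b
          (W.map (fst (X (c s)).X (tow X Z c l).X) ((f (c s)).t a) *
            W.map (snd (X (c s)).X (tow X Z c l).X) (asm X c f Z l (upd s a F))) =
          (if a = b then (1 : W.K) else 0) • asm X c f Z l (upd s a F) := by
        intro a
        rw [SFrame.cT_ext, SFrame.u_t]
        congr 1
        simp [hb]
      simp only [h3] at h2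
      rw [Finset.sum_eq_single b (fun a _ ha => by rw [if_neg ha, zero_smul])
        (fun h => absurd (Finset.mem_univ _) h), if_pos rfl, one_smul] at h2
      exact h2
    have h4 : ∀ b : Lt κ, (b.2 : ℕ) < (f (c s)).g → upd s b F = 0 := by
      intro b hb
      refine ih hnd' _ (fun J J' hJ => hd _ _ fun t ht => ?_) (fun t ht J hJ => ?_) (h1 b hb)
      · by_cases hts : t = s
        · rw [hts, update_self, update_self]
        · rw [update_of_ne hts, update_of_ne hts]
          exact hJ t ((List.mem_cons.1 ht).resolve_left hts)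
      · refine hoff t (List.mem_cons_of_mem _ ht) _ ?_
        rw [update_of_ne]
        · exact hJ
        · rintro rfl
          exact hs ht
    funext J
    by_cases hb : ((J s).2 : ℕ) < (f (c s)).g
    · have h5 := congrFun (h4 (J s) hb) J
      change F (update J s (J s)) = 0 at h5
      rwa [update_eq_self] at h5
    · exact hoff s List.mem_cons_self J (not_lt.1 hb)

/-- **Numerically trivial Tate functions are traceless**, if there are no numerically trivial Tate
functions for smaller lists. -/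
theorem traceless (hG : ∀ i, IsGalois W χ (X i).X (X i).act)
    (hmid : ∀ i, transcendental W (X i).X ≤ W.gr (X i).X (X i).X.dim)
    (hDX : ∀ i, HomEqNum W (X i).X) {Z : DG W Γ} {l : List Λ} (hl : l.Nodup) {p q : Λ}
    (hp : p ∈ l) (hq : q ∈ l) (hpq : p ≠ q) (hc : c p = c q)
    (hS : Nd χ X c f Z ((l.erase p).erase q)) {m j : ℕ} {F : (Λ → Lt κ) → W.H Z.X}
    (hF : IsT χ X c f Z l m j F) (hR : asm X c f Z l F ∈ Rad W (tow X Z c l).X) :
    cw p q F = 0 := by
  have hperm := perm_two hp hq hpq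
  have hnd : (p :: q :: (l.erase p).erase q).Nodup := hperm.nodup_iff.1 hl
  have hT := IsT.contract hG hF hp hq hpq hc hl
  obtain ⟨φ, ε, h5⟩ := asm_perm (X := X) (c := c) (f := f) (Z := Z) hmid hperm.symm hnd
  have h6 : asm X c f Z (p :: q :: (l.erase p).erase q) F ∈
      Rad W (tow X Z c (p :: q :: (l.erase p).erase q)).X := by
    rw [h5]
    exact Submodule.smul_mem _ _ (rad_map _ hR)
  have h7 := rad_push (snd (X (c p)).X ((X (c q)).X.prod (tow X Z c ((l.erase p).erase q)).X) ≫
        snd (X (c q)).X (tow X Z c ((l.erase p).erase q)).X)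
    (rad_mul (algSpan_map (Obj.lift (fst (X (c p)).X ((X (c q)).X.prod
      (tow X Z c ((l.erase p).erase q)).X)) (snd (X (c p)).X ((X (c q)).X.prod
        (tow X Z c ((l.erase p).erase q)).X) ≫ fst (X (c q)).X
          (tow X Z c ((l.erase p).erase q)).X)) (dOm_alg' (f := f) hc (hDX _) (hmid _))) h6)
  have h8 := asm_contract (X := X) (c := c) (f := f) hmid (Z := Z) (l := (l.erase p).erase q)
    hpq hc (F := F) (fun J hJ => hF.off hl hp hJ)
  have h9 := h8.symm.trans rfl ▸ h7
  have h10 : asm X c f Z ((l.erase p).erase q) (cw p q F) ∈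
      Rad W (tow X Z c ((l.erase p).erase q)).X := by
    have h11 := Submodule.smul_mem _ ((-1 : W.K) ^ ((X (c q)).X.dim * (X (c p)).X.dim)) h9
    rw [smul_smul, ← mul_pow, neg_one_mul, neg_neg, one_pow, one_smul] at h11
    exact h11
  have h12 := hS _ _ _ hT h10
  exact asm_inj _ (List.nodup_cons.1 (List.nodup_cons.1 hnd).2).2 _ hT.dep
    (fun s hs J hJ => hT.off (List.nodup_cons.1 (List.nodup_cons.1 hnd).2).2 hs hJ) h12

end Pool.Agent.X227.DN
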