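import Pool.Agent.X227.DN.Rad

/-!
# Numerically trivial classes on towers
-/

open CategoryTheory AlgebraicGeometry Finset Function
open Pool.Agent.Y132.EP (DG tow idm map_idm exm map_exm)

set_option linter.unusedSectionVars false

universe u v w

namespace Pool.Agent.X227.DN

open Pool.Agent.H914 Pool.Agent.H914.VarClass Pool.Agent.H914.VarClass.Obj
  Pool.Agent.H914.WeilCohomology Pool.Agent.H281R3.HT Pool.Agent.W552 Pool.Agent.TH125.Gal
  Pool.Agent.Y132.AF

section hom

variable {k : Type u} [Field k] {𝒱 : VarClass k} {ops : CycleOps 𝒱}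
  {W : WeilCohomology.{u, 0} ops}

theorem rad_of_hom {Y : 𝒱.Obj} (h : HomEqNum W Y) : Rad W Y = ⊥ :=
  disjoint_iff.1 (isCompl h).disjoint

theorem hom_of_rad {Y : 𝒱.Obj} (h : Rad W Y = ⊥) : HomEqNum W Y := by
  intro j hj z hz hnum
  have h1 : W.cl Y z ∈ Rad W Y := by
    refine ⟨Submodule.subset_span (Set.mem_iUnion.2 ⟨j, z, hz, rfl⟩), mem_trans.2 ?_⟩
    rintro i _ ⟨w, hw, rfl⟩
    rw [bil_apply, ← W.cl_mul]
    by_cases hi : i = Y.dim - j
    · subst hi
      rw [W.tr_cl (by
        have := ops.mul_mem hz hw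
        rwa [show j + (Y.dim - j) = Y.dim by omega] at this)]
      rw [hnum w hw]
      simp
    · refine W.tr_eq_zero (i := 2 * (j + i)) (W.cl_mem (ops.mul_mem hz hw)) (by omega)
  rw [h] at h1
  exact (Submodule.mem_bot _).1 h1

theorem hom_iff {Y : 𝒱.Obj} : HomEqNum W Y ↔ Rad W Y = ⊥ := ⟨rad_of_hom, hom_of_rad⟩

theorem alg_prj {Y : 𝒱.Obj} {y : W.H Y} (hy : y ∈ algSpan W Y) (m : ℕ) :
    Pool.Agent.Y132.AH.prj (W.isInternal Y) m y ∈ algSpan W Y := by
  induction hy using Submodule.span_induction with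
  | mem c hc =>
    obtain ⟨j, hj⟩ := Set.mem_iUnion.1 hc
    have h1 : c ∈ W.gr Y (2 * j) := by
      obtain ⟨z, hz, rfl⟩ := hj
      exact W.cl_mem hz
    by_cases hm : 2 * j = m
    · subst hm
      rw [Pool.Agent.Y132.AH.prj_same _ h1]
      exact Submodule.subset_span hc
    · rw [Pool.Agent.Y132.AH.prj_ne _ hm h1]
      exact Submodule.zero_mem _
  | zero => rw [map_zero]; exact Submodule.zero_mem _
  | add x y _ _ hx hy => rw [map_add]; exact Submodule.add_mem _ hx hy
  | smul r x _ hx => rw [map_smul]; exact Submodule.smul_mem _ _ hx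

theorem alg_odd {Y : 𝒱.Obj} {y : W.H Y} (hy : y ∈ algSpan W Y) {m : ℕ} (hm : ¬Even m) :
    Pool.Agent.Y132.AH.prj (W.isInternal Y) m y = 0 := by
  induction hy using Submodule.span_induction with
  | mem c hc =>
    obtain ⟨j, z, hz, rfl⟩ := Set.mem_iUnion.1 hc
    exact Pool.Agent.Y132.AH.prj_ne _ (fun h => hm (by rw [← h]; exact even_two_mul j))
      (W.cl_mem hz)
  | zero => rw [map_zero]
  | add x y _ _ hx hy => rw [map_add, hx, hy, add_zero]
  | smul r x _ hx => rw [map_smul, hx, smul_zero]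

theorem tr_prj {Y : 𝒱.Obj} {i m : ℕ} (him : m + i = 2 * Y.dim) {c : W.H Y} (hc : c ∈ W.gr Y i)
    (y : W.H Y) : W.tr Y (Pool.Agent.Y132.AH.prj (W.isInternal Y) m y * c) = W.tr Y (y * c) := by
  refine Pool.Agent.Y132.AH.int_ind (p := fun y => W.tr Y (Pool.Agent.Y132.AH.prj
    (W.isInternal Y) m y * c) = W.tr Y (y * c)) (W.isInternal Y) y (fun l y hy => ?_) (by simp)
    fun x y hx hy => ?_
  · by_cases hl : l = m
    · subst hl
      rw [Pool.Agent.Y132.AH.prj_same _ hy]
    · rw [Pool.Agent.Y132.AH.prj_ne _ hl hy, zero_mul, map_zero,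
        W.tr_eq_zero (W.mul_mem hy hc) (by omega)]
  · rw [map_add, add_mul, map_add, hx, hy, add_mul, map_add]

theorem rad_prj {Y : 𝒱.Obj} {y : W.H Y} (hy : y ∈ Rad W Y) (m : ℕ) :
    Pool.Agent.Y132.AH.prj (W.isInternal Y) m y ∈ Rad W Y := by
  refine ⟨alg_prj hy.1 m, mem_trans.2 ?_⟩
  rintro i c hci
  have hc : c ∈ W.gr Y (2 * i) := by
    obtain ⟨z, hz, rfl⟩ := hci
    exact W.cl_mem hz
  by_cases him : m + 2 * i = 2 * Y.dim
  · rw [bil_apply, tr_prj him hc, ← bil_apply]
    exact mem_trans.1 hy.2 i c hci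
  · rw [bil_apply, W.tr_eq_zero (W.mul_mem (Pool.Agent.Y132.AH.prj_mem _ _ _) hc) him]

end hom

section act

variable {k : Type u} [Field k] {𝒱 : VarClass k} {ops : CycleOps 𝒱}
  {W : WeilCohomology.{u, 0} ops} {Γ : Type} [Group Γ]

/-- The algebraic classes are Tate classes. -/
def Fix (χ : Γ →* W.Kˣ) (B : DG W Γ) : Prop :=
  ∀ j, ∀ c ∈ algClasses W B.X j, ∃ Δ : Subgroup Γ, Δ.FiniteIndex ∧
    ∀ g ∈ Δ, B.act g c = (χ g : W.K) ^ j • c

theorem Fix.span {χ : Γ →* W.Kˣ} {B : DG W Γ} (h : Fix χ B) {j : ℕ} {c : W.H B.X}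
    (hc : c ∈ Submodule.span W.K (algClasses W B.X j)) : ∃ Δ : Subgroup Γ, Δ.FiniteIndex ∧
      ∀ g ∈ Δ, B.act g c = (χ g : W.K) ^ j • c := by
  induction hc using Submodule.span_induction with
  | mem c hc => exact h j c hc
  | zero => exact ⟨⊤, inferInstance, fun g _ => by rw [map_zero, smul_zero]⟩
  | add x y _ _ hx hy =>
    obtain ⟨Δ, hΔ, h1⟩ := hx
    obtain ⟨Δ', hΔ', h2⟩ := hy
    exact ⟨Δ ⊓ Δ', inferInstance, fun g hg => by
      rw [map_add, h1 g hg.1, h2 g hg.2, smul_add]⟩
  | smul r x _ hx =>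
    obtain ⟨Δ, hΔ, h1⟩ := hx
    exact ⟨Δ, hΔ, fun g hg => by rw [map_smul, h1 g hg, smul_comm]⟩

variable {κ : ℕ} {ι : Type} {Λ : Type} [DecidableEq Λ]

/-- All numerically trivial Tate functions give the class zero. -/
def Nd (χ : Γ →* W.Kˣ) (X : ι → DG W Γ) (c : Λ → ι) (f : ∀ i, SFrame κ (X i).X W)
    (B : DG W Γ) (l : List Λ) : Prop :=
  ∀ m j F, IsT χ X c f B l m j F → asm X c f B l F ∈ Rad W (tow X B c l).X →
    asm X c f B l F = 0

variable {χ : Γ →* W.Kˣ} {X : ι → DG W Γ} {c : Λ → ι} {f : ∀ i, SFrame κ (X i).X W}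

theorem Nd.of_rad {B : DG W Γ} {l : List Λ} (h : Rad W (tow X B c l).X = ⊥) :
    Nd χ X c f B l := by
  intro m j F _ hr
  rw [h] at hr
  exact (Submodule.mem_bot _).1 hr

theorem Nd.rad {B : DG W Γ} (h : Nd χ X c f B []) (hB : Fix χ B) : Rad W B.X = ⊥ := by
  rw [Submodule.eq_bot_iff]
  intro y hy
  refine Pool.Agent.Y132.AH.ext_prj (W.isInternal B.X) fun m => ?_
  rw [map_zero]
  by_cases hm : Even m
  · obtain ⟨j, hj⟩ := hm
    obtain rfl : m = 2 * j := by omega
    have h1 := rad_prj hy (2 * j)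
    set x := Pool.Agent.Y132.AH.prj (W.isInternal B.X) (2 * j) y with hx
    have h2 : x ∈ W.gr B.X (2 * j) := Pool.Agent.Y132.AH.prj_mem _ _ _
    obtain ⟨Δ, hΔ, hact⟩ := hB.span (algSpan_gr h1.1 h2)
    exact h (2 * j) j (fun _ => x) ⟨fun _ _ _ => rfl, fun _ => h2, by simp [dsum], Δ, hΔ,
      fun g hg => funext fun J => hact g hg⟩ h1
  · exact alg_odd hy.1 hm

/-- Contraction of a factor of the base. -/
theorem asm_ctr {A B : DG W Γ} (l : List Λ) : ∃ (w : (tow X (A.prod B) c l).X ⟶ A.X)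
    (v : (tow X (A.prod B) c l).X ⟶ (tow X B c l).X), ∀ u ∈ algSpan W A.X,
      ∀ F : (Λ → Lt κ) → W.H (A.prod B).X, W.push v (W.map w u * asm X c f (A.prod B) l F) =
        asm X c f B l (fun J => ctr (bil W A.X u) (F J)) := by
  induction l with
  | nil => exact ⟨fst A.X B.X, snd A.X B.X, fun u _ F => (ctr_bil u _).symm⟩
  | cons t l ih =>
    obtain ⟨w, v, h⟩ := ih
    refine ⟨snd (X (c t)).X (tow X (A.prod B) c l).X ≫ w, idm (X (c t)).X v, fun u hu F => ?_⟩
    rw [asm_cons, asm_cons]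
    rw [Finset.mul_sum, map_sum]
    refine Finset.sum_congr rfl fun a _ => ?_
    have h1 : W.map (snd (X (c t)).X (tow X (A.prod B) c l).X ≫ w) u *
        (W.map (fst (X (c t)).X (tow X (A.prod B) c l).X) ((f (c t)).t a) *
          W.map (snd (X (c t)).X (tow X (A.prod B) c l).X)
            (asm X c f (A.prod B) l (upd t a F))) =
        W.map (fst (X (c t)).X (tow X (A.prod B) c l).X) ((f (c t)).t a) *
          W.map (snd (X (c t)).X (tow X (A.prod B) c l).X)
            (W.map w u * asm X c f (A.prod B) l (upd t a F)) := by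
      rw [← mul_assoc, alg_comm (algSpan_map _ hu), mul_assoc, W.map_comp, ← map_mul]
    rw [h1]
    refine (push_idm (X (c t)).X v _ _).trans ?_
    rw [h u hu]
    rfl

/-- The last factor, in the other direction. -/
theorem asm_snoc' {B : DG W Γ} {s : Λ} {l : List Λ} (hs : s ∉ l) :
    ∃ r : (tow X B c (l ++ [s])).X ⟶ (tow X ((X (c s)).prod B) c l).X,
      ∀ G : (Λ → Lt κ) → W.H B.X, W.map r (asm X c f ((X (c s)).prod B) l
        (fun J => ∑ a, W.map (fst (X (c s)).X B.X) ((f (c s)).t a) *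
          W.map (snd (X (c s)).X B.X) (G (update J s a)))) =
        asm X c f B (l ++ [s]) G := by
  induction l with
  | nil =>
    refine ⟨𝟙 _, fun G => ?_⟩
    rw [W.map_id]
    rfl
  | cons t l ih =>
    rw [List.mem_cons, not_or] at hs
    obtain ⟨r, h⟩ := ih hs.2
    refine ⟨idm (X (c t)).X r, fun G => ?_⟩
    have h0 : asm X c f B (t :: l ++ [s]) G =
        ∑ b, W.map (fst (X (c t)).X (tow X B c (l ++ [s])).X) ((f (c t)).t b) *
          W.map (snd (X (c t)).X (tow X B c (l ++ [s])).X)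
            (asm X c f B (l ++ [s]) (upd t b G)) := rfl
    rw [asm_cons]
    refine Eq.trans ?_ h0.symm
    rw [map_sum]
    refine Finset.sum_congr rfl fun b _ => ?_
    have h1 : upd t b (fun J => ∑ a, W.map (fst (X (c s)).X B.X) ((f (c s)).t a) *
          W.map (snd (X (c s)).X B.X) (G (update J s a))) =
        fun J => ∑ a, W.map (fst (X (c s)).X B.X) ((f (c s)).t a) *
          W.map (snd (X (c s)).X B.X) (upd t b G (update J s a)) := by
      funext J
      refine Finset.sum_congr rfl fun a _ => ?_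
      rw [upd, update_comm (Ne.symm hs.1)]
    refine (map_idm _ r _ _).trans ?_
    rw [h1, h]

theorem cC_eq {A Z : 𝒱.Obj} (f : SFrame κ A W) (n : Fin f.s.NC) :
    f.cC Z n = ctr (bil W A (f.s.uC n)) := by
  rw [SFrame.cC]
  congr 1
  exact LinearMap.ext fun x => f.coord_inl n x

/-- **The recursion.** -/
theorem Nd.step (hG : ∀ i, IsGalois W χ (X i).X (X i).act)
    (hmid : ∀ i, transcendental W (X i).X ≤ W.gr (X i).X (X i).X.dim) {B : DG W Γ} {s : Λ}
    {l : List Λ} (hs : s ∉ l) (h1 : Nd χ X c f B l) (h2 : Nd χ X c f B (l ++ [s])) :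
    Nd χ X c f ((X (c s)).prod B) l := by
  intro m j F hF hR
  obtain ⟨Δ, hΔ, hact⟩ := hF.act
  obtain ⟨Δ', hΔ', hfix⟩ := exists_fix (hG (c s)) (f (c s)).s
  have hX : ∀ g, ∀ t ∈ transcendental W (X (c s)).X, (X (c s)).act g t ∈
    transcendental W (X (c s)).X := fun g t ht => act_trans (hG (c s)) g ht
  have hdecJ : ∀ J, F J = (∑ n, W.map (fst (X (c s)).X B.X) ((f (c s)).s.bC n : W.H (X (c s)).X) *
      W.map (snd (X (c s)).X B.X) ((f (c s)).cC B.X n (F J))) +
      ∑ a, W.map (fst (X (c s)).X B.X) ((f (c s)).t a) *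
        W.map (snd (X (c s)).X B.X) ((f (c s)).cT B.X a (F J)) := fun J =>
    (f (c s)).expand_prod B.X (F J)
  have hdec : F = (∑ n, fun J => W.map (fst (X (c s)).X B.X) ((f (c s)).s.bC n : W.H (X (c s)).X) *
      W.map (snd (X (c s)).X B.X) ((f (c s)).cC B.X n (F J))) +
      fun J => ∑ a, W.map (fst (X (c s)).X B.X) ((f (c s)).t a) *
        W.map (snd (X (c s)).X B.X) ((f (c s)).cT B.X a (F J)) := by
    funext J
    rw [Pi.add_apply, Finset.sum_apply]
    exact hdecJ J
  have hactC : ∀ g ∈ Δ', ∀ n y, (f (c s)).cC B.X n (((X (c s)).prod B).act g y) =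
      (χ g : W.K) ^ (f (c s)).s.jC n • B.act g ((f (c s)).cC B.X n y) := by
    intro g hg n y
    rw [act_coords (f (c s)) (hX g) (hfix g hg) y]
    exact cC_sum _ _ _ n
  have hactT : ∀ g ∈ Δ', ∀ b y, (f (c s)).cT B.X b (((X (c s)).prod B).act g y) =
      ∑ a, bil W (X (c s)).X ((f (c s)).u b) ((X (c s)).act g ((f (c s)).t a)) •
        B.act g ((f (c s)).cT B.X a y) := by
    intro g hg b y
    by_cases hb : (b.2 : ℕ) < (f (c s)).g
    · rw [act_coords (f (c s)) (hX g) (hfix g hg) y]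
      exact cT_sum _ _ _ b hb
    · rw [cT_off _ (not_lt.1 hb), (f (c s)).u_off (not_lt.1 hb)]
      simp
  have hasm : asm X c f ((X (c s)).prod B) l F = (∑ n, asm X c f ((X (c s)).prod B) l fun J =>
      W.map (fst (X (c s)).X B.X) ((f (c s)).s.bC n : W.H (X (c s)).X) *
      W.map (snd (X (c s)).X B.X) ((f (c s)).cC B.X n (F J))) +
      asm X c f ((X (c s)).prod B) l fun J => ∑ a, W.map (fst (X (c s)).X B.X) ((f (c s)).t a) *
        W.map (snd (X (c s)).X B.X) ((f (c s)).cT B.X a (F J)) := by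
    conv_lhs => rw [hdec]
    rw [asm_add, asm_sum]
  -- the algebraic components
  have hC : ∀ n, asm X c f B l (fun J => (f (c s)).cC B.X n (F J)) = 0 := by
    intro n
    have hr : asm X c f B l (fun J => (f (c s)).cC B.X n (F J)) ∈ Rad W (tow X B c l).X := by
      obtain ⟨w, v, h⟩ := asm_ctr (A := X (c s)) (B := B) (c := c) (f := f) l
      have h3 := h _ ((f (c s)).s.uC n).2 F
      rw [cC_eq]
      rw [← h3]
      exact rad_push _ (rad_mul (algSpan_map _ ((f (c s)).s.uC n).2) hR)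
    by_cases hn : 2 * (f (c s)).s.jC n ≤ m
    · refine h1 (m - 2 * (f (c s)).s.jC n) (j - (f (c s)).s.jC n) _
        ⟨fun J J' hJ => by rw [hF.dep J J' hJ],
          fun J => (cC_gr (f (c s)) (hmid (c s)) (hF.gr J) n).1 hn, ?_,
          Δ ⊓ Δ', inferInstance, fun g hg => ?_⟩ hr
      · have := hF.deg
        omega
      · have hχ : (χ g : W.K) ≠ 0 := Units.ne_zero _
        have e1 : (fun J => B.act g ((f (c s)).cC B.X n (F J))) = fun J =>
            (((χ g : W.K) ^ (f (c s)).s.jC n)⁻¹ • (f (c s)).cC B.X n)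
              (((X (c s)).prod B).act g (F J)) := by
          funext J
          rw [LinearMap.smul_apply, hactC g hg.2, smul_smul,
            inv_mul_cancel₀ (pow_ne_zero _ hχ), one_smul]
        rw [e1]
        have e2 := SL_lin (Nm X c f g) (l := l) (fun _ => ((χ g : W.K) ^ (f (c s)).s.jC n)⁻¹ •
          (f (c s)).cC B.X n) (fun _ _ _ _ => rfl) fun J => ((X (c s)).prod B).act g (F J)
        rw [e2, hact g hg.1]
        funext J
        rw [Pi.smul_apply, Pi.smul_apply, LinearMap.smul_apply, map_smul, smul_smul]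
        congr 1
        have e3 : j = (j - (f (c s)).s.jC n) + (f (c s)).s.jC n := by
          have := hF.deg
          omega
        conv_lhs => rw [e3, pow_add]
        rw [mul_comm ((χ g : W.K) ^ (j - (f (c s)).s.jC n)), ← mul_assoc,
          inv_mul_cancel₀ (pow_ne_zero _ hχ), one_mul]
    · have e1 : (fun J => (f (c s)).cC B.X n (F J)) = 0 := by
        funext J
        exact (cC_gr (f (c s)) (hmid (c s)) (hF.gr J) n).2 hn
      rw [e1, asm_zero]
  -- the transcendental components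
  have hsum : (∑ n, asm X c f ((X (c s)).prod B) l fun J =>
      W.map (fst (X (c s)).X B.X) ((f (c s)).s.bC n : W.H (X (c s)).X) *
      W.map (snd (X (c s)).X B.X) ((f (c s)).cC B.X n (F J))) = 0 := by
    refine Finset.sum_eq_zero fun n _ => ?_
    obtain ⟨w, v, h⟩ := asm_fst (A := X (c s)) (B := B) (c := c) (f := f) l
    rw [h _ ((f (c s)).s.bC n).2 fun J => (f (c s)).cC B.X n (F J), hC n, map_zero, mul_zero]
  rw [hsum, zero_add] at hasm
  have hindep : ∀ J b, F (update J s b) = F J := by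
    intro J b
    refine hF.dep _ _ fun t ht => ?_
    rw [update_of_ne]
    rintro rfl
    exact hs ht
  have e0 : (fun J => ∑ a, W.map (fst (X (c s)).X B.X) ((f (c s)).t a) *
      W.map (snd (X (c s)).X B.X) ((f (c s)).cT B.X a (F J))) = fun J => ∑ a,
      W.map (fst (X (c s)).X B.X) ((f (c s)).t a) * W.map (snd (X (c s)).X B.X)
        ((fun J => (f (c s)).cT B.X (J s) (F J)) (update J s a)) := by
    funext J
    refine Finset.sum_congr rfl fun a _ => ?_
    beta_reduce
    rw [update_self, hindep]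
  have hT : asm X c f B (l ++ [s]) (fun J => (f (c s)).cT B.X (J s) (F J)) = 0 := by
    have hr : asm X c f B (l ++ [s]) (fun J => (f (c s)).cT B.X (J s) (F J)) ∈
        Rad W (tow X B c (l ++ [s])).X := by
      obtain ⟨r, h⟩ := asm_snoc' (X := X) (B := B) (c := c) (f := f) hs
      rw [← h fun J => (f (c s)).cT B.X (J s) (F J)]
      refine rad_map _ ?_
      rw [← (congrArg (asm X c f ((X (c s)).prod B) l) e0), ← hasm]
      exact hR
    by_cases hn : (X (c s)).X.dim ≤ m
    · refine h2 (m - (X (c s)).X.dim) j _ ⟨fun J J' hJ => ?_,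
        fun J => (cT_gr (f (c s)) (hmid (c s)) (hF.gr J) (J s)).1 hn, ?_,
        Δ ⊓ Δ', inferInstance, fun g hg => ?_⟩ hr
      · rw [hF.dep J J' fun t ht => hJ t (List.mem_append_left _ ht),
          hJ s (List.mem_append_right _ (List.mem_singleton.2 rfl))]
      · have h3 := hF.deg
        have h4 : dsum X c (l ++ [s]) = dsum X c l + (X (c s)).X.dim := by
          simp [dsum]
        omega
      · rw [SL_append]
        have e1 : SL (Nm X c f g) [s] (fun J => B.act g ((f (c s)).cT B.X (J s) (F J))) =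
            fun J => (f (c s)).cT B.X (J s) (((X (c s)).prod B).act g (F J)) := by
          funext J
          rw [hactT g hg.2]
          simp only [SL, Sp, update_self, hindep]
          rfl
        rw [e1]
        have e2 := SL_lin (Nm X c f g) (l := l) (fun J => (f (c s)).cT B.X (J s))
          (fun t ht b J => by
            rw [update_of_ne]
            rintro rfl
            exact hs ht) fun J => ((X (c s)).prod B).act g (F J)
        rw [e2, hact g hg.1]
        funext J
        rw [Pi.smul_apply, Pi.smul_apply, map_smul]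
    · have e1 : (fun J => (f (c s)).cT B.X (J s) (F J)) = 0 := by
        funext J
        exact (cT_gr (f (c s)) (hmid (c s)) (hF.gr J) (J s)).2 hn
      rw [e1, asm_zero]
  obtain ⟨r, h⟩ := asm_snoc (X := X) (B := B) (c := c) (f := f) hs
  rw [hasm]
  refine ((congrArg (asm X c f ((X (c s)).prod B) l) e0).trans
    (h fun J => (f (c s)).cT B.X (J s) (F J))).trans ?_
  rw [hT, map_zero]

/-- The reduction to functions with values in the cohomology of the base. -/
theorem Nd.tow (hG : ∀ i, IsGalois W χ (X i).X (X i).act)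
    (hmid : ∀ i, transcendental W (X i).X ≤ W.gr (X i).X (X i).X.dim) {Z : DG W Γ}
    (l₂ : List Λ) : ∀ l₁ : List Λ, (l₁ ++ l₂).Nodup →
      (∀ l', l'.Sublist l₂ → Nd χ X c f Z (l₁ ++ l')) → Nd χ X c f (tow X Z c l₂) l₁ := by
  induction l₂ with
  | nil =>
    intro l₁ _ h
    have h1 := h [] (List.Sublist.refl _)
    rwa [List.append_nil] at h1
  | cons s l₂ ih =>
    intro l₁ hnd h
    have hs : s ∉ l₁ := by
      intro hs
      rw [List.nodup_append] at hnd
      exact hnd.2.2 s hs s List.mem_cons_self rfl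
    have hnd1 : ((l₁ ++ [s]) ++ l₂).Nodup := by
      rw [List.append_assoc]
      exact hnd
    have hnd2 : (l₁ ++ l₂).Nodup := by
      refine hnd.sublist ?_
      exact List.Sublist.append_left (List.sublist_cons_self s l₂) l₁
    refine Nd.step hG hmid hs (ih l₁ hnd2 fun l' hl' => h l' (hl'.cons s)) ?_
    refine ih (l₁ ++ [s]) hnd1 fun l' hl' => ?_
    rw [List.append_assoc]
    exact h _ (hl'.cons_cons s)

theorem rad_of_sub (hG : ∀ i, IsGalois W χ (X i).X (X i).act)
    (hmid : ∀ i, transcendental W (X i).X ≤ W.gr (X i).X (X i).X.dim) {Z : DG W Γ}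
    {l : List Λ} (hl : l.Nodup) (hfix : Fix χ (tow X Z c l))
    (h : ∀ l', l'.Sublist l → Nd χ X c f Z l') : Rad W (tow X Z c l).X = ⊥ :=
  Nd.rad (Nd.tow hG hmid l [] hl fun l' hl' => h l' hl') hfix

end act

end Pool.Agent.X227.DN
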