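import Pool.Agent.Y132.AH.MT

/-!
# Numerically trivial classes on products
-/

open CategoryTheory AlgebraicGeometry Finset Function
open Pool.Agent.Y132.EP (DG tow idm map_idm exm map_exm)

set_option linter.unusedSectionVars false

universe u v w

namespace Pool.Agent.X227.DN

open Pool.Agent.H914 Pool.Agent.H914.VarClass Pool.Agent.H914.VarClass.Obj
  Pool.Agent.H914.WeilCohomology Pool.Agent.H281R3.HT Pool.Agent.W552 Pool.Agent.TH125.Gal
  Pool.Agent.Y132.AF

section rad

variable {k : Type u} [Field k] {𝒱 : VarClass k} {ops : CycleOps 𝒱}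
  {W : WeilCohomology.{u, v} ops}

/-- The linear combinations of algebraic classes which are orthogonal to all algebraic classes. -/
def Rad (W : WeilCohomology.{u, v} ops) (Y : 𝒱.Obj) : Submodule W.K (W.H Y) :=
  algSpan W Y ⊓ transcendental W Y

theorem rad_push {A B : 𝒱.Obj} (f : A ⟶ B) {a : W.H A} (ha : a ∈ Rad W A) :
    W.push f a ∈ Rad W B := by
  refine ⟨algSpan_push f ha.1, mem_trans'.2 fun c hc => ?_⟩
  rw [bil_apply, W.tr_push, ← bil_apply]
  exact trans_alg ha.2 (algSpan_map f hc)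

theorem rad_map {A B : 𝒱.Obj} (f : A ⟶ B) {b : W.H B} (hb : b ∈ Rad W B) :
    W.map f b ∈ Rad W A := by
  refine ⟨algSpan_map f hb.1, mem_trans'.2 fun c hc => ?_⟩
  rw [bil_apply, ← alg_comm hc, ← W.tr_push, ← bil_apply]
  exact alg_trans hb.2 (algSpan_push f hc)

theorem rad_mul {A : 𝒱.Obj} {a b : W.H A} (ha : a ∈ algSpan W A) (hb : b ∈ Rad W A) :
    a * b ∈ Rad W A := by
  refine ⟨algSpan_mul ha hb.1, mem_trans'.2 fun c hc => ?_⟩
  rw [bil_apply, alg_comm ha, mul_assoc, ← bil_apply]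
  exact trans_alg hb.2 (algSpan_mul ha hc)

/-- Contraction with an element is a push-forward. -/
theorem ctr_bil {A Z : 𝒱.Obj} (u : W.H A) (y : W.H (A.prod Z)) :
    ctr (bil W A u) y = W.push (snd A Z) (W.map (fst A Z) u * y) := by
  refine kun_ext (L := fun y => ctr (bil W A u) y)
    (L' := fun y => W.push (snd A Z) (W.map (fst A Z) u * y)) (fun a b => map_add _ _ _)
    (fun a b => by beta_reduce; rw [mul_add, map_add]) (fun a z => ?_) y
  rw [ctr_apply, ← mul_assoc, ← map_mul, W.push_snd]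
  rfl

theorem rad_ctr {A Z : 𝒱.Obj} {u : W.H A} (hu : u ∈ algSpan W A) {y : W.H (A.prod Z)}
    (hy : y ∈ Rad W (A.prod Z)) : ctr (bil W A u) y ∈ Rad W Z := by
  rw [ctr_bil]
  exact rad_push _ (rad_mul (algSpan_map _ hu) hy)

end rad

section rad0

variable {k : Type u} [Field k] {𝒱 : VarClass k} {ops : CycleOps 𝒱}
  {W : WeilCohomology.{u, 0} ops}

/-- external products -/
theorem ext_swap {A B : 𝒱.Obj} {j i : ℕ} {a a' : W.H A} {b b' : W.H B} (hb : b ∈ W.gr B j)
    (ha' : a' ∈ W.gr A i) :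
    (W.map (fst A B) a * W.map (snd A B) b) * (W.map (fst A B) a' * W.map (snd A B) b') =
      (-1 : W.K) ^ (j * i) • (W.map (fst A B) (a * a') * W.map (snd A B) (b * b')) := by
  have h1 : W.map (snd A B) b * W.map (fst A B) a' =
      (-1 : W.K) ^ (j * i) • (W.map (fst A B) a' * W.map (snd A B) b) :=
    W.comm (W.map_mem _ hb) (W.map_mem _ ha')
  rw [map_mul, map_mul, mul_assoc, ← mul_assoc (W.map (snd A B) b), h1, smul_mul_assoc,
    mul_smul_comm, mul_assoc, mul_assoc]

theorem push_gr {A B : 𝒱.Obj} (f : A ⟶ B) {i : ℕ} {a : W.H A} (ha : a ∈ W.gr A i) :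
    ∃ m, W.push f a ∈ W.gr B m ∧ (-1 : W.K) ^ m = (-1 : W.K) ^ i := by
  by_cases h : 2 * A.dim ≤ i + 2 * B.dim
  · refine ⟨i + 2 * B.dim - 2 * A.dim, Pool.Agent.Y132.AH.mem_of_prj (W.isInternal B) fun m hm =>
      Pool.Agent.Y132.AH.gr_push f ha (by omega), ?_⟩
    have h1 : i + 2 * B.dim - 2 * A.dim + 2 * A.dim = i + 2 * B.dim := by omega
    have h2 := congrArg (fun n => (-1 : W.K) ^ n) h1
    simpa [pow_add, pow_mul] using h2
  · refine ⟨i, ?_, rfl⟩
    have h1 : W.push f a = 0 := by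
      refine Pool.Agent.Y132.AH.ext_prj (W.isInternal B) fun m => ?_
      rw [map_zero]
      exact Pool.Agent.Y132.AH.gr_push f ha (by omega)
    rw [h1]
    exact Submodule.zero_mem _

/-- **Base change.** -/
theorem push_idm (A : 𝒱.Obj) {B B' : 𝒱.Obj} (φ : B ⟶ B') (a : W.H A) (b : W.H B) :
    W.push (idm A φ) (W.map (fst A B) a * W.map (snd A B) b) =
      W.map (fst A B') a * W.map (snd A B') (W.push φ b) := by
  refine gr_induction (W.isInternal B) (p := fun b => W.push (idm A φ)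
    (W.map (fst A B) a * W.map (snd A B) b) =
      W.map (fst A B') a * W.map (snd A B') (W.push φ b)) ?_ ?_ b
  · intro j b hb
    obtain ⟨m, hm, hs⟩ := push_gr φ hb
    apply W.tr_ext
    intro c
    rw [W.tr_push]
    refine W.kunneth_induction (p := fun c => W.tr (A.prod B) (W.map (fst A B) a *
      W.map (snd A B) b * W.map (idm A φ) c) = W.tr (A.prod B') (W.map (fst A B') a *
        W.map (snd A B') (W.push φ b) * c)) ?_ ?_ c
    · intro c c' hc hc'
      rw [map_add, mul_add, map_add, hc, hc', mul_add, map_add]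
    · intro i' j' x hx z hz
      rw [map_idm, ext_swap hb hx, ext_swap hm hx, map_smul, map_smul, W.tr_prod, W.tr_prod,
        W.tr_push, pow_mul, pow_mul, hs]
  · intro b b' hb hb'
    rw [map_add, mul_add, map_add, hb, hb', map_add, map_add, mul_add]

end rad0

end Pool.Agent.X227.DN
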